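import Mathlib

set_option autoImplicit false

/-! # Adjacency bits of graphs as real numbers -/

namespace Pool.Agent.Q210.TD

/-- The unordered pairs of two different vertices. -/
abbrev Pr (n : ℕ) : Type := {e : Sym2 (Fin n) // ¬ e.IsDiag}

open Classical in
/-- The adjacency bits of a graph: `1` for an edge and `0` for a nonedge. -/
noncomputable def bits {n : ℕ} (G : SimpleGraph (Fin n)) (e : Pr n) : ℝ :=
  if e.1 ∈ G.edgeSet then 1 else 0

/-- The adjacency bits of a pair of graphs. -/
noncomputable def bits2 {n : ℕ} (G H : SimpleGraph (Fin n)) : Pr n ⊕ Pr n → ℝ :=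
  Sum.elim (bits G) (bits H)

end Pool.Agent.Q210.TD
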