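import Pool.Agent.Q210.TD.Lower

/-!
# The threshold degree of graph isomorphism is linear in the number of vertices, up to a logarithm

The input of graph isomorphism on `n` labelled vertices are the `n (n - 1)` adjacency bits of two
graphs `G`, `H`. A real polynomial in these bits decides graph isomorphism with unbounded error (it
is a perceptron in the sense of Minsky and Papert) if it is positive for isomorphic and negative for
nonisomorphic graphs.

1. Degree `2 (⌊log₂ n!⌋ + 1) = O (n log n)` suffices: two graphs with the same numbers of copies of
every graph with at most `⌊log₂ n!⌋ + 1` edges are isomorphic (a point of a set with less than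
`2 ^ (d + 1)` points of a cube is isolated in it by `d` coordinates), and the degree is twice the
number of edges that are needed.

2. Degree `⌊n / 2⌋` is necessary, even to decide the isomorphism with one fixed graph, two disjoint
cycles of the same length, and even if the value zero is allowed for nonisomorphic graphs: parity on
`⌊n / 2⌋` bits is a projection of it.
-/

set_option autoImplicit false

namespace Pool.Agent.Q210.TD.Handin

open MvPolynomial Pool.Agent.Q210.TD

/-- Bounds for the degree of real polynomials which decide graph isomorphism on `n` vertices. -/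
theorem result (n : ℕ) :
    (∃ P : MvPolynomial (Pr n ⊕ Pr n) ℝ,
      P.totalDegree ≤ 2 * (Nat.log 2 n.factorial + 1) ∧
      ∀ G H : SimpleGraph (Fin n), (Nonempty (G ≃g H) → 0 < eval (bits2 G H) P) ∧
        (¬ Nonempty (G ≃g H) → eval (bits2 G H) P < 0)) ∧
    (6 ≤ n →
      (∀ P : MvPolynomial (Pr n ⊕ Pr n) ℝ,
        (∀ G H : SimpleGraph (Fin n), (Nonempty (G ≃g H) → 0 < eval (bits2 G H) P) ∧
          (¬ Nonempty (G ≃g H) → eval (bits2 G H) P ≤ 0)) →
        n / 2 ≤ P.totalDegree) ∧
      ∃ H : SimpleGraph (Fin n), ∀ Q : MvPolynomial (Pr n) ℝ,
        (∀ G : SimpleGraph (Fin n), (Nonempty (G ≃g H) → 0 < eval (bits G) Q) ∧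
          (¬ Nonempty (G ≃g H) → eval (bits G) Q ≤ 0)) →
        n / 2 ≤ Q.totalDegree) :=
  ⟨upper n, fun hn => ⟨lower_pair n hn, lower n hn⟩⟩

end Pool.Agent.Q210.TD.Handin
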