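import Pool.Agent.Q210.TD.Defs

set_option autoImplicit false

/-! # Graph isomorphism is sign represented by a polynomial of degree `2 log n! + 2` -/

namespace Pool.Agent.Q210.TD

open MvPolynomial Finset

variable {n : ℕ}

/-- The action of a permutation of the vertices on the pairs. -/
def act (π : Equiv.Perm (Fin n)) : Equiv.Perm (Pr n) where
  toFun e := ⟨Sym2.map π e.1, by
    rw [Sym2.isDiag_map π.injective]
    exact e.2⟩
  invFun e := ⟨Sym2.map π.symm e.1, by
    rw [Sym2.isDiag_map π.symm.injective]
    exact e.2⟩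
  left_inv e := by
    apply Subtype.ext
    simp [Sym2.map_map]
  right_inv e := by
    apply Subtype.ext
    simp [Sym2.map_map]

open Classical in
/-- The Boolean adjacency bits. -/
noncomputable def bl (G : SimpleGraph (Fin n)) (e : Pr n) : Bool := decide (e.1 ∈ G.edgeSet)

/-- A Boolean value as an integer. -/
def bi (b : Bool) : ℤ := if b then 1 else 0

theorem bits_eq (G : SimpleGraph (Fin n)) (e : Pr n) : bits G e = ((bi (bl G e) : ℤ) : ℝ) := by
  unfold bits bi bl
  by_cases h : e.1 ∈ G.edgeSet <;> simp [h]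

theorem bl_iso {G H : SimpleGraph (Fin n)} (φ : G ≃g H) (e : Pr n) :
    bl H (act φ.toEquiv e) = bl G e := by
  unfold bl
  congr 1
  obtain ⟨e, he⟩ := e
  induction e using Sym2.inductionOn with
  | _ u v =>
    show (H.Adj (φ u) (φ v)) = G.Adj u v
    exact propext φ.map_adj_iff

/-- An isomorphism from equal relabelled adjacency bits. -/
theorem iso_of_bl {G H : SimpleGraph (Fin n)} (π ρ : Equiv.Perm (Fin n))
    (h : ∀ e, bl H (act π e) = bl G (act ρ e)) : Nonempty (G ≃g H) := by
  refine ⟨⟨ρ.symm.trans π, ?_⟩⟩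
  intro u v
  by_cases huv : u = v
  · subst huv
    simp
  · have hne : ¬ (s(ρ.symm u, ρ.symm v) : Sym2 (Fin n)).IsDiag := by
      rw [Sym2.mk_isDiag_iff]
      intro h1
      exact huv (ρ.symm.injective h1)
    have h1 := h ⟨s(ρ.symm u, ρ.symm v), hne⟩
    unfold bl act at h1
    have h2 := decide_eq_decide.1 h1
    simp only [Equiv.coe_fn_mk, Sym2.map_mk, Equiv.apply_symm_apply,
      SimpleGraph.mem_edgeSet] at h2
    exact h2

/-- The number of relabellings of `G` which contain the set `S` of pairs. -/
noncomputable def cnt (G : SimpleGraph (Fin n)) (S : Finset (Pr n)) : ℤ :=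
  ∑ π : Equiv.Perm (Fin n), ∏ e ∈ S, bi (bl G (act π e))

theorem cnt_iso {G H : SimpleGraph (Fin n)} (φ : G ≃g H) (S : Finset (Pr n)) :
    cnt G S = cnt H S := by
  unfold cnt
  refine Fintype.sum_equiv (Equiv.mulLeft φ.toEquiv) _ _ ?_
  intro π
  apply Finset.prod_congr rfl
  intro e _
  have h : act (φ.toEquiv * π) e = act φ.toEquiv (act π e) := by
    apply Subtype.ext
    show Sym2.map (φ.toEquiv * π) e.1 = Sym2.map φ.toEquiv (Sym2.map π e.1)
    rw [Sym2.map_map]
    rfl
  show _ = bi (bl H (act (φ.toEquiv * π) e))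
  rw [h, bl_iso]

/-- A point of a small set is isolated by few coordinates. -/
theorem exists_isolated {E : Type} [DecidableEq E] (d : ℕ) :
    ∀ T : Finset (E → Bool), T.Nonempty → T.card < 2 ^ (d + 1) →
      ∃ x ∈ T, ∃ S : Finset E, S.card ≤ d ∧ ∀ y ∈ T, (∀ e ∈ S, y e = x e) → y = x := by
  induction d with
  | zero =>
    intro T hT hc
    obtain ⟨x, hx⟩ := hT
    refine ⟨x, hx, ∅, by simp, ?_⟩
    intro y hy _
    have : T.card ≤ 1 := by omega
    exact Finset.card_le_one.1 this y hy x hx
  | succ d ih =>
    intro T hT hc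
    by_cases hone : T.card ≤ 1
    · obtain ⟨x, hx⟩ := hT
      exact ⟨x, hx, ∅, by simp, fun y hy _ => Finset.card_le_one.1 hone y hy x hx⟩
    · push Not at hone
      obtain ⟨a, ha, b, hb, hab⟩ := Finset.one_lt_card.1 hone
      obtain ⟨e, he⟩ := Function.ne_iff.1 hab
      have hsplit : (T.filter (fun y => y e = true)).card +
          (T.filter (fun y => ¬ y e = true)).card = T.card := by
        rw [Finset.card_filter_add_card_filter_not]
      have hpos : ∀ c : Bool, (T.filter (fun y => y e = c)).Nonempty := by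
        intro c
        rcases Bool.eq_false_or_eq_true (a e) with h1 | h1 <;>
          rcases Bool.eq_false_or_eq_true (b e) with h2 | h2
        · exact absurd (h1.trans h2.symm) he
        · cases c
          · exact ⟨b, by simp [hb, h2]⟩
          · exact ⟨a, by simp [ha, h1]⟩
        · cases c
          · exact ⟨a, by simp [ha, h1]⟩
          · exact ⟨b, by simp [hb, h2]⟩
        · exact absurd (h1.trans h2.symm) he
      obtain ⟨c, hc2⟩ : ∃ c : Bool, (T.filter (fun y => y e = c)).card < 2 ^ (d + 1) := by
        by_contra hcon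
        push Not at hcon
        have h1 := hcon true
        have h2 := hcon false
        have h3 : (T.filter (fun y => ¬ y e = true)).card =
            (T.filter (fun y => y e = false)).card := by
          congr 1
          apply Finset.filter_congr
          intro y _
          simp
        rw [pow_succ] at hc
        omega
      obtain ⟨x, hx, S, hS, hiso⟩ := ih _ (hpos c) hc2
      rw [Finset.mem_filter] at hx
      refine ⟨x, hx.1, insert e S, ?_, ?_⟩
      · refine le_trans (Finset.card_insert_le _ _) ?_
        omega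
      · intro y hy h
        apply hiso y
        · rw [Finset.mem_filter]
          exact ⟨hy, (h e (Finset.mem_insert_self _ _)).trans hx.2⟩
        · intro e' he'
          exact h e' (Finset.mem_insert_of_mem he')

/-- The number of relabellings of `G` which agree with `x` on `S`. -/
noncomputable def agr (G : SimpleGraph (Fin n)) (x : Pr n → Bool) (S : Finset (Pr n)) : ℤ :=
  ∑ π : Equiv.Perm (Fin n), ∏ e ∈ S,
    (if x e then bi (bl G (act π e)) else 1 - bi (bl G (act π e)))

theorem agr_eq (G : SimpleGraph (Fin n)) (x : Pr n → Bool) (S : Finset (Pr n)) :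
    agr G x S = ∑ U ∈ (S.filter (fun e => ¬ x e = true)).powerset,
      (-1 : ℤ) ^ U.card * cnt G (S.filter (fun e => x e = true) ∪ U) := by
  unfold agr cnt
  simp only [Finset.mul_sum]
  rw [Finset.sum_comm]
  apply Finset.sum_congr rfl
  intro π _
  rw [Finset.prod_ite]
  have h1 : ∏ e ∈ S.filter (fun e => ¬ x e = true), (1 - bi (bl G (act π e))) =
      ∑ U ∈ (S.filter (fun e => ¬ x e = true)).powerset,
        ∏ e ∈ U, (- bi (bl G (act π e))) := by
    rw [← Finset.prod_one_add]
    apply Finset.prod_congr rfl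
    intro e _
    ring
  rw [h1, Finset.mul_sum]
  apply Finset.sum_congr rfl
  intro U hU
  rw [Finset.mem_powerset] at hU
  have hdis : Disjoint (S.filter (fun e => x e = true)) U := by
    rw [Finset.disjoint_left]
    intro e he heU
    have h2 := hU heU
    rw [Finset.mem_filter] at he h2
    exact h2.2 he.2
  rw [Finset.prod_union hdis]
  have h3 : ∏ e ∈ U, (- bi (bl G (act π e))) = (-1 : ℤ) ^ U.card * ∏ e ∈ U, bi (bl G (act π e)) := by
    rw [← Finset.prod_const, ← Finset.prod_mul_distrib]
    apply Finset.prod_congr rfl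
    intro e _
    ring
  rw [h3]
  ring

theorem exists_cnt_ne {G H : SimpleGraph (Fin n)} (h : ¬ Nonempty (G ≃g H)) :
    ∃ S : Finset (Pr n), S.card ≤ Nat.log 2 n.factorial + 1 ∧ cnt G S ≠ cnt H S := by
  classical
  by_contra hcon
  push Not at hcon
  set d := Nat.log 2 n.factorial + 1 with hd
  let oG : Finset (Pr n → Bool) := Finset.univ.image (fun π e => bl G (act π e))
  let oH : Finset (Pr n → Bool) := Finset.univ.image (fun π e => bl H (act π e))
  have hcG : oG.card ≤ n.factorial := by
    refine le_trans Finset.card_image_le ?_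
    rw [Finset.card_univ, Fintype.card_perm, Fintype.card_fin]
  have hcH : oH.card ≤ n.factorial := by
    refine le_trans Finset.card_image_le ?_
    rw [Finset.card_univ, Fintype.card_perm, Fintype.card_fin]
  have hcard : (oG ∪ oH).card < 2 ^ (d + 1) := by
    have h1 : n.factorial < 2 ^ d := Nat.lt_pow_succ_log_self (by norm_num) _
    have h2 := Finset.card_union_le oG oH
    rw [pow_succ]
    omega
  have hne : (oG ∪ oH).Nonempty := by
    refine ⟨fun e => bl G (act 1 e), ?_⟩
    rw [Finset.mem_union]
    left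
    exact Finset.mem_image_of_mem _ (Finset.mem_univ _)
  obtain ⟨x, hx, S, hS, hiso⟩ := exists_isolated d _ hne hcard
  have hagr : agr G x S = agr H x S := by
    rw [agr_eq, agr_eq]
    apply Finset.sum_congr rfl
    intro U hU
    rw [Finset.mem_powerset] at hU
    rw [hcon]
    refine le_trans (Finset.card_le_card (Finset.union_subset (Finset.filter_subset _ _)
      (hU.trans (Finset.filter_subset _ _)))) hS
  -- positivity on the orbit of `x`
  have hpos : ∀ (K : SimpleGraph (Fin n)) (π₀ : Equiv.Perm (Fin n)),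
      (fun e => bl K (act π₀ e)) = x → 0 < agr K x S := by
    intro K π₀ hK
    unfold agr
    apply Finset.sum_pos'
    · intro π _
      apply Finset.prod_nonneg
      intro e _
      unfold bi
      split_ifs <;> norm_num
    · refine ⟨π₀, Finset.mem_univ _, ?_⟩
      apply Finset.prod_pos
      intro e _
      have : bl K (act π₀ e) = x e := congrFun hK e
      rw [this]
      cases x e <;> simp [bi]
  have hzero : ∀ (K : SimpleGraph (Fin n)), (∀ π : Equiv.Perm (Fin n),
      (fun e => bl K (act π e)) ∈ oG ∪ oH) → (∀ π : Equiv.Perm (Fin n),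
      (fun e => bl K (act π e)) ≠ x) → agr K x S = 0 := by
    intro K hK1 hK2
    unfold agr
    apply Finset.sum_eq_zero
    intro π _
    have h1 : ¬ ∀ e ∈ S, (fun e => bl K (act π e)) e = x e := fun h2 =>
      hK2 π (hiso _ (hK1 π) h2)
    push Not at h1
    obtain ⟨e, he, hne⟩ := h1
    apply Finset.prod_eq_zero he
    revert hne
    cases bl K (act π e) <;> cases x e <;> simp [bi]
  rw [Finset.mem_union] at hx
  rcases hx with hx | hx
  · obtain ⟨π₀, _, hπ₀⟩ := Finset.mem_image.1 hx
    have h1 := hpos G π₀ hπ₀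
    rw [hagr, hzero H] at h1
    · exact lt_irrefl _ h1
    · intro π
      rw [Finset.mem_union]
      right
      exact Finset.mem_image_of_mem _ (Finset.mem_univ _)
    · intro π hπ
      apply h
      apply iso_of_bl π π₀
      intro e
      exact congrFun (hπ.trans hπ₀.symm) e
  · obtain ⟨π₀, _, hπ₀⟩ := Finset.mem_image.1 hx
    have h1 := hpos H π₀ hπ₀
    rw [← hagr, hzero G] at h1
    · exact lt_irrefl _ h1
    · intro π
      rw [Finset.mem_union]
      left
      exact Finset.mem_image_of_mem _ (Finset.mem_univ _)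
    · intro π hπ
      apply h
      apply iso_of_bl π₀ π
      intro e
      exact congrFun (hπ₀.trans hπ.symm) e

/-- The polynomial counting the relabellings which contain `S`, in the variables of one graph. -/
noncomputable def cpoly (s : Pr n → Pr n ⊕ Pr n) (S : Finset (Pr n)) :
    MvPolynomial (Pr n ⊕ Pr n) ℝ :=
  ∑ π : Equiv.Perm (Fin n), ∏ e ∈ S, X (s (act π e))

theorem totalDegree_cpoly (s : Pr n → Pr n ⊕ Pr n) (S : Finset (Pr n)) :
    (cpoly s S).totalDegree ≤ S.card := by
  unfold cpoly
  refine totalDegree_finsetSum_le ?_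
  intro π _
  refine le_trans (totalDegree_finsetProd _ _) ?_
  refine le_trans (Finset.sum_le_card_nsmul _ _ 1 ?_) ?_
  · intro e _
    rw [totalDegree_X]
  · simp

theorem eval_cpoly_inl (G H : SimpleGraph (Fin n)) (S : Finset (Pr n)) :
    eval (bits2 G H) (cpoly Sum.inl S) = ((cnt G S : ℤ) : ℝ) := by
  unfold cpoly cnt bits2
  rw [map_sum]
  push_cast
  apply Finset.sum_congr rfl
  intro π _
  rw [map_prod]
  apply Finset.prod_congr rfl
  intro e _
  rw [eval_X, Sum.elim_inl, bits_eq]

theorem eval_cpoly_inr (G H : SimpleGraph (Fin n)) (S : Finset (Pr n)) :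
    eval (bits2 G H) (cpoly Sum.inr S) = ((cnt H S : ℤ) : ℝ) := by
  unfold cpoly cnt bits2
  rw [map_sum]
  push_cast
  apply Finset.sum_congr rfl
  intro π _
  rw [map_prod]
  apply Finset.prod_congr rfl
  intro e _
  rw [eval_X, Sum.elim_inr, bits_eq]

theorem upper (n : ℕ) : ∃ P : MvPolynomial (Pr n ⊕ Pr n) ℝ,
    P.totalDegree ≤ 2 * (Nat.log 2 n.factorial + 1) ∧
      ∀ G H : SimpleGraph (Fin n), (Nonempty (G ≃g H) → 0 < eval (bits2 G H) P) ∧
        (¬ Nonempty (G ≃g H) → eval (bits2 G H) P < 0) := by
  classical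
  set d := Nat.log 2 n.factorial + 1 with hd
  refine ⟨C (1 / 2) - ∑ S ∈ Finset.univ.filter (fun S : Finset (Pr n) => S.card ≤ d),
    (cpoly Sum.inl S - cpoly Sum.inr S) ^ 2, ?_, ?_⟩
  · refine le_trans (totalDegree_sub _ _) ?_
    rw [totalDegree_C]
    apply max_le (Nat.zero_le _)
    refine totalDegree_finsetSum_le ?_
    intro S hS
    rw [Finset.mem_filter] at hS
    refine le_trans (totalDegree_pow _ _) ?_
    apply Nat.mul_le_mul_left
    refine le_trans (totalDegree_sub _ _) ?_
    apply max_le
    · exact le_trans (totalDegree_cpoly _ _) hS.2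
    · exact le_trans (totalDegree_cpoly _ _) hS.2
  · intro G H
    have hev : eval (bits2 G H) (C (1 / 2) -
        ∑ S ∈ Finset.univ.filter (fun S : Finset (Pr n) => S.card ≤ d),
          (cpoly Sum.inl S - cpoly Sum.inr S) ^ 2 : MvPolynomial (Pr n ⊕ Pr n) ℝ) =
        1 / 2 - ((∑ S ∈ Finset.univ.filter (fun S : Finset (Pr n) => S.card ≤ d),
          (cnt G S - cnt H S) ^ 2 : ℤ) : ℝ) := by
      rw [map_sub, eval_C, map_sum]
      congr 1
      push_cast
      apply Finset.sum_congr rfl
      intro S _
      rw [map_pow, map_sub, eval_cpoly_inl, eval_cpoly_inr]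
    rw [hev]
    constructor
    · rintro ⟨φ⟩
      have h0 : (∑ S ∈ Finset.univ.filter (fun S : Finset (Pr n) => S.card ≤ d),
          (cnt G S - cnt H S) ^ 2 : ℤ) = 0 := by
        apply Finset.sum_eq_zero
        intro S _
        rw [cnt_iso φ S]
        ring
      rw [h0]
      norm_num
    · intro h
      obtain ⟨S, hS, hne⟩ := exists_cnt_ne h
      have h1 : (1 : ℤ) ≤ ∑ S ∈ Finset.univ.filter (fun S : Finset (Pr n) => S.card ≤ d),
          (cnt G S - cnt H S) ^ 2 := by
        have h2 : (1 : ℤ) ≤ (cnt G S - cnt H S) ^ 2 := by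
          have : cnt G S - cnt H S ≠ 0 := sub_ne_zero.2 hne
          have := pow_pos (abs_pos.2 this) 2
          rw [sq_abs] at this
          omega
        refine le_trans h2 (Finset.single_le_sum (f := fun S => (cnt G S - cnt H S) ^ 2) ?_ ?_)
        · intro S _
          positivity
        · rw [Finset.mem_filter]
          exact ⟨Finset.mem_univ _, hS⟩
      have h3 : (1 : ℝ) ≤ ((∑ S ∈ Finset.univ.filter (fun S : Finset (Pr n) => S.card ≤ d),
          (cnt G S - cnt H S) ^ 2 : ℤ) : ℝ) := by
        exact_mod_cast h1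
      linarith

end Pool.Agent.Q210.TD
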