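import Pool.Agent.Q210.TD.Parity
import Pool.Agent.Q210.TD.Upper

set_option autoImplicit false

/-! # Polynomials that sign represent the isomorphism with two cycles have degree `n / 2` -/

namespace Pool.Agent.Q210.TD

open MvPolynomial Finset

variable {n m : ℕ}

section Cycle

variable (ι : ZMod m × ZMod 2 ↪ Fin n)

/-- Two vertices in consecutive layers are joined straight or crossed. -/
def cadj (x : ZMod m → Bool) (p q : ZMod m × ZMod 2) : Prop :=
  q.1 = p.1 + 1 ∧ q.2 = p.2 + bz (x p.1)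

/-- The graph on `Fin n`: the double cover of a cycle given by `x`, and isolated vertices. -/
def cyc (x : ZMod m → Bool) : SimpleGraph (Fin n) where
  Adj u v := u ≠ v ∧ ∃ p q, ι p = u ∧ ι q = v ∧ (cadj x p q ∨ cadj x q p)
  symm := ⟨by
    rintro u v ⟨h, p, q, hp, hq, h1⟩
    exact ⟨h.symm, q, p, hq, hp, h1.symm⟩⟩
  loopless := ⟨fun u h => h.1 rfl⟩

theorem cyc_adj (hm : 3 ≤ m) (x : ZMod m → Bool) (p q : ZMod m × ZMod 2) :
    (cyc ι x).Adj (ι p) (ι q) ↔ (cadj x p q ∨ cadj x q p) := by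
  constructor
  · rintro ⟨_, p', q', hp, hq, h⟩
    rw [ι.injective hp, ι.injective hq] at h
    exact h
  · intro h
    refine ⟨?_, p, q, rfl, rfl, h⟩
    intro hpq
    have hpq := ι.injective hpq
    subst hpq
    have h1 : (1 : ZMod m) = 0 := by
      have h2 : p.1 = p.1 + 1 := by
        rcases h with h | h <;> exact h.1
      have := congrArg (fun z => z - p.1) h2
      simpa using this.symm
    have h3 : ((1 : ℕ) : ZMod m) = 0 := by exact_mod_cast h1
    rw [ZMod.natCast_eq_zero_iff] at h3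
    have := Nat.le_of_dvd one_pos h3
    omega

theorem two_ne (hm : 3 ≤ m) : (1 + 1 : ZMod m) ≠ 0 := by
  intro h
  have h3 : ((2 : ℕ) : ZMod m) = 0 := by
    push_cast
    rw [← h]
    norm_num
  rw [ZMod.natCast_eq_zero_iff] at h3
  have := Nat.le_of_dvd two_pos h3
  omega

/-- The pair `e` joins the layers `i` and `i + 1`. -/
def Between (e : Sym2 (Fin n)) (i : ZMod m) : Prop :=
  ∃ a b : ZMod 2, e = s(ι (i, a), ι (i + 1, b))

open Classical in
/-- The coordinate on which an adjacency bit depends. -/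
noncomputable def idx (e : Pr n) : Option (ZMod m) :=
  if h : ∃ i, Between ι e.1 i then some h.choose else none

theorem bl_cyc_between (hm : 3 ≤ m) (x : ZMod m → Bool) {e : Pr n} {i : ZMod m} {a b : ZMod 2}
    (h : e.1 = s(ι (i, a), ι (i + 1, b))) : bl (cyc ι x) e = decide (b = a + bz (x i)) := by
  unfold bl
  rw [decide_eq_decide, h, SimpleGraph.mem_edgeSet, cyc_adj ι hm]
  unfold cadj
  constructor
  · rintro (⟨_, h1⟩ | ⟨h1, _⟩)
    · exact h1
    · exfalso
      simp only at h1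
      apply two_ne hm
      have := congrArg (fun z => z - i) h1
      simp only [sub_self] at this
      rw [this]
      ring
  · intro h1
    exact Or.inl ⟨rfl, h1⟩

theorem bl_cyc_not (x : ZMod m → Bool) {e : Pr n} (h : ¬ ∃ i, Between ι e.1 i) :
    bl (cyc ι x) e = false := by
  unfold bl
  rw [decide_eq_false_iff_not]
  intro h1
  apply h
  obtain ⟨e, he⟩ := e
  induction e using Sym2.inductionOn with
  | _ u v =>
    rw [SimpleGraph.mem_edgeSet] at h1
    obtain ⟨_, p, q, hp, hq, h2 | h2⟩ := h1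
    · refine ⟨p.1, p.2, q.2, ?_⟩
      show s(u, v) = _
      rw [← h2.1, ← hp, ← hq]
    · refine ⟨q.1, q.2, p.2, ?_⟩
      show s(u, v) = _
      rw [← h2.1, ← hp, ← hq]
      exact Sym2.eq_swap

theorem bl_cyc_congr (hm : 3 ≤ m) (x y : ZMod m → Bool) (e : Pr n)
    (h : ∀ i, idx ι e = some i → x i = y i) : bl (cyc ι x) e = bl (cyc ι y) e := by
  by_cases h1 : ∃ i, Between ι e.1 i
  · have h2 : idx ι e = some h1.choose := by
      unfold idx
      rw [dif_pos h1]
    obtain ⟨a, b, hab⟩ := h1.choose_spec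
    rw [bl_cyc_between ι hm x hab, bl_cyc_between ι hm y hab, h _ h2]
  · rw [bl_cyc_not ι x h1, bl_cyc_not ι y h1]

/-- The partial sums. -/
def ps (x : ZMod m → Bool) (t : ℕ) : ZMod 2 := ∑ j ∈ Finset.range t, bz (x (j : ZMod m))

theorem ps_full [NeZero m] (x : ZMod m → Bool) : ps x m = ∑ i, bz (x i) := by
  unfold ps
  symm
  refine Finset.sum_bij (fun i _ => i.val) ?_ ?_ ?_ ?_
  · intro i _
    exact Finset.mem_range.2 (ZMod.val_lt i)
  · intro i _ j _ h
    exact ZMod.val_injective m h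
  · intro j hj
    exact ⟨(j : ZMod m), Finset.mem_univ _, ZMod.val_cast_of_lt (Finset.mem_range.1 hj)⟩
  · intro i _
    rw [ZMod.natCast_zmod_val]

theorem ps_periodic [NeZero m] (x : ZMod m → Bool) (h : ∑ i, bz (x i) = 0) (t : ℕ) :
    ps x (t + m) = ps x t := by
  unfold ps
  rw [add_comm t m, Finset.sum_range_add]
  have h1 : ∑ j ∈ Finset.range m, bz (x (j : ZMod m)) = 0 := by
    rw [← h]
    exact ps_full x
  rw [h1, zero_add]
  apply Finset.sum_congr rfl
  intro j _
  push_cast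
  rw [ZMod.natCast_self, zero_add]

theorem ps_val_succ [NeZero m] (x : ZMod m → Bool) (h : ∑ i, bz (x i) = 0) (i : ZMod m) :
    ps x (i + 1).val = ps x i.val + bz (x i) := by
  have hper : Function.Periodic (ps x) m := ps_periodic x h
  have h1 : (i + 1).val = (i.val + 1) % m := by
    have h2 : ((i.val + 1 : ℕ) : ZMod m) = i + 1 := by
      push_cast
      rw [ZMod.natCast_zmod_val]
    rw [← h2, ZMod.val_natCast]
  rw [h1, hper.map_mod_nat]
  unfold ps
  rw [Finset.sum_range_succ, ZMod.natCast_zmod_val]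

/-- The map of the layers given by partial sums. -/
def lay [NeZero m] (x : ZMod m → Bool) : Equiv.Perm (ZMod m × ZMod 2) where
  toFun p := (p.1, p.2 + ps x p.1.val)
  invFun p := (p.1, p.2 - ps x p.1.val)
  left_inv p := by simp
  right_inv p := by simp

theorem cyc_iso [NeZero m] (hm : 3 ≤ m) (x : ZMod m → Bool) (h : ∑ i, bz (x i) = 0) :
    Nonempty (cyc ι x ≃g cyc ι (fun _ => false)) := by
  have hb : bz false = 0 := rfl
  have key : ∀ p q : ZMod m × ZMod 2, cadj x p q ↔
      cadj (fun _ => false) ((lay x).symm p) ((lay x).symm q) := by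
    intro p q
    show (q.1 = p.1 + 1 ∧ q.2 = p.2 + bz (x p.1)) ↔
      (q.1 = p.1 + 1 ∧ q.2 - ps x q.1.val = p.2 - ps x p.1.val + bz false)
    rw [hb, add_zero]
    apply and_congr_right
    intro h1
    rw [h1, ps_val_succ x h]
    constructor
    · intro h2
      rw [h2]
      ring
    · intro h2
      have h3 := eq_add_of_sub_eq h2
      rw [h3]
      ring
  have key2 : ∀ p q : ZMod m × ZMod 2, (cyc ι x).Adj (ι p) (ι q) ↔
      (cyc ι (fun _ => false)).Adj (ι ((lay x).symm p)) (ι ((lay x).symm q)) := by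
    intro p q
    rw [cyc_adj ι hm, cyc_adj ι hm, key, key]
  classical
  let π : Equiv.Perm (Fin n) := Equiv.Perm.viaEmbedding (lay x).symm ι
  have hπ : ∀ p, π (ι p) = ι ((lay x).symm p) := fun p =>
    Equiv.Perm.viaEmbedding_apply (lay x).symm ι p
  have hrange : ∀ (y : ZMod m → Bool) {u v : Fin n}, (cyc ι y).Adj u v → u ∈ Set.range ι := by
    rintro y u v ⟨_, p, q, hp, hq, _⟩
    exact ⟨p, hp⟩
  have hπr : ∀ u, π u ∈ Set.range ι → u ∈ Set.range ι := by
    rintro u ⟨p, hp⟩
    refine ⟨(lay x) p, ?_⟩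
    apply π.injective
    rw [hπ, Equiv.symm_apply_apply, hp]
  refine ⟨⟨π, ?_⟩⟩
  intro u v
  constructor
  · intro h1
    obtain ⟨p, rfl⟩ := hπr u (hrange _ h1)
    obtain ⟨q, rfl⟩ := hπr v (hrange _ h1.symm)
    rw [hπ, hπ] at h1
    exact (key2 p q).2 h1
  · intro h1
    obtain ⟨p, rfl⟩ := hrange _ h1
    obtain ⟨q, rfl⟩ := hrange _ h1.symm
    rw [hπ, hπ]
    exact (key2 p q).1 h1

/-- The vertices of positive degree fall into two nonempty parts without edges between them. -/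
def Split (G : SimpleGraph (Fin n)) : Prop :=
  ∃ c : Fin n → ZMod 2, (∀ u v, G.Adj u v → c u = c v) ∧
    ∃ u u' v v', G.Adj u u' ∧ G.Adj v v' ∧ c u ≠ c v

theorem Split.of_iso {G H : SimpleGraph (Fin n)} (φ : G ≃g H) (h : Split H) : Split G := by
  obtain ⟨c, h1, u, u', v, v', h2, h3, h4⟩ := h
  refine ⟨fun w => c (φ w), fun a b hab => h1 _ _ (φ.map_adj_iff.2 hab),
    φ.symm u, φ.symm u', φ.symm v, φ.symm v', φ.symm.map_adj_iff.2 h2,
    φ.symm.map_adj_iff.2 h3, ?_⟩
  simpa using h4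

theorem split_zero (hm : 3 ≤ m) : Split (cyc ι (fun _ : ZMod m => false)) := by
  classical
  have hb : bz false = 0 := rfl
  let c : Fin n → ZMod 2 := fun u => if h : ∃ p, ι p = u then h.choose.2 else 0
  have hc : ∀ p, c (ι p) = p.2 := by
    intro p
    have h : ∃ q, ι q = ι p := ⟨p, rfl⟩
    show (if h : ∃ q, ι q = ι p then h.choose.2 else 0) = _
    rw [dif_pos h, ι.injective h.choose_spec]
  refine ⟨c, ?_, ι (0, 0), ι (1, 0), ι (0, 1), ι (1, 1), ?_, ?_, ?_⟩
  · rintro u v ⟨_, p, q, rfl, rfl, h⟩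
    rw [hc, hc]
    rcases h with h | h
    · rw [h.2, hb, add_zero]
    · rw [h.2, hb, add_zero]
  · rw [cyc_adj ι hm]
    left
    exact ⟨(zero_add 1).symm, by rw [hb]; rfl⟩
  · rw [cyc_adj ι hm]
    left
    exact ⟨(zero_add 1).symm, by rw [hb]; rfl⟩
  · rw [hc, hc]
    show (0 : ZMod 2) ≠ 1
    decide

theorem not_split [NeZero m] (hm : 3 ≤ m) (x : ZMod m → Bool) (h : ∑ i, bz (x i) = 1) :
    ¬ Split (cyc ι x) := by
  rintro ⟨c, h1, u, u', v, v', h2, h3, h4⟩
  have hstep : ∀ (i : ZMod m) (a : ZMod 2), c (ι (i, a)) = c (ι (i + 1, a + bz (x i))) := by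
    intro i a
    apply h1
    rw [cyc_adj ι hm]
    exact Or.inl ⟨rfl, rfl⟩
  have hwalk : ∀ (t : ℕ) (a : ZMod 2), c (ι (0, a)) = c (ι ((t : ZMod m), a + ps x t)) := by
    intro t
    induction t with
    | zero =>
      intro a
      simp [ps]
    | succ t ih =>
      intro a
      rw [ih a, hstep]
      congr 2
      have : ps x (t + 1) = ps x t + bz (x t) := by
        unfold ps
        rw [Finset.sum_range_succ]
      rw [this, Nat.cast_succ]
      congr 1
      ring
  have h0 : ∀ a : ZMod 2, c (ι (0, a)) = c (ι (0, a + 1)) := by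
    intro a
    have := hwalk m a
    rw [ps_full, h, ZMod.natCast_self] at this
    exact this
  have hconst : ∀ p, c (ι p) = c (ι (0, 0)) := by
    rintro ⟨i, b⟩
    have h5 := hwalk i.val (b - ps x i.val)
    rw [ZMod.natCast_zmod_val, sub_add_cancel] at h5
    rw [← h5]
    rcases zmod2_cases (b - ps x i.val) with h6 | h6
    · rw [h6]
    · rw [h6, h0 0, zero_add]
  apply h4
  obtain ⟨_, p, q, rfl, _, _⟩ := h2
  obtain ⟨_, p', q', rfl, _, _⟩ := h3
  rw [hconst p, hconst p']

end Cycle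

/-- The lower bound for variables of any kind whose values depend on at most one coordinate. -/
theorem lower_aux (n : ℕ) (hn : 6 ≤ n) : ∃ H : SimpleGraph (Fin n),
    (∀ Q : MvPolynomial (Pr n) ℝ,
      (∀ G : SimpleGraph (Fin n), (Nonempty (G ≃g H) → 0 < eval (bits G) Q) ∧
        (¬ Nonempty (G ≃g H) → eval (bits G) Q ≤ 0)) →
      n / 2 ≤ Q.totalDegree) ∧
    (∀ Q : MvPolynomial (Pr n ⊕ Pr n) ℝ,
      (∀ G : SimpleGraph (Fin n), (Nonempty (G ≃g H) → 0 < eval (bits2 G H) Q) ∧
        (¬ Nonempty (G ≃g H) → eval (bits2 G H) Q ≤ 0)) →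
      n / 2 ≤ Q.totalDegree) := by
  classical
  obtain ⟨m, hm⟩ : ∃ m, m = n / 2 := ⟨_, rfl⟩
  rw [← hm]
  have hm3 : 3 ≤ m := by omega
  have : NeZero m := ⟨by omega⟩
  have hcard : Fintype.card (ZMod m × ZMod 2) ≤ Fintype.card (Fin n) := by
    rw [Fintype.card_prod, ZMod.card, ZMod.card, Fintype.card_fin]
    omega
  obtain ⟨ι⟩ := Function.Embedding.nonempty_of_card_le hcard
  have main : ∀ (σ : Type) (A : (ZMod m → Bool) → σ → ℝ) (ix : σ → Option (ZMod m)),
      (∀ x y s, (∀ i, ix s = some i → x i = y i) → A x s = A y s) →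
      ∀ Q : MvPolynomial σ ℝ,
      (∀ x : ZMod m → Bool, (Nonempty (cyc ι x ≃g cyc ι (fun _ => false)) → 0 < eval (A x) Q) ∧
        (¬ Nonempty (cyc ι x ≃g cyc ι (fun _ => false)) → eval (A x) Q ≤ 0)) →
      m ≤ Q.totalDegree := by
    intro σ A ix hA Q hQ
    by_contra hcon
    push Not at hcon
    have hc2 : Q.totalDegree < Fintype.card (ZMod m) := by
      rw [ZMod.card]
      exact hcon
    have hsum := alt_sum_eq_zero A ix hA Q hc2
    have hpos : (0 : ℝ) < ∑ x : ZMod m → Bool, sg x * eval (A x) Q := by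
      apply Finset.sum_pos'
      · intro x _
        unfold sg
        rcases zmod2_cases (∑ i, bz (x i)) with h | h
        · rw [if_pos h, one_mul]
          exact ((hQ x).1 (cyc_iso ι hm3 x h)).le
        · rw [if_neg (by rw [h]; decide)]
          have h1 := (hQ x).2 (fun ⟨φ⟩ => not_split ι hm3 x h
            (Split.of_iso φ (split_zero ι hm3)))
          linarith
      · refine ⟨fun _ => false, Finset.mem_univ _, ?_⟩
        have h0 : ∑ i : ZMod m, bz ((fun _ : ZMod m => false) i) = 0 := by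
          simp [bz]
        unfold sg
        rw [if_pos h0, one_mul]
        exact (hQ _).1 ⟨RelIso.refl _⟩
    rw [hsum] at hpos
    exact lt_irrefl _ hpos
  refine ⟨cyc ι (fun _ => false), ?_, ?_⟩
  · intro Q hQ
    refine main (Pr n) (fun x => bits (cyc ι x)) (idx ι) ?_ Q (fun x => hQ _)
    intro x y e h
    show bits (cyc ι x) e = bits (cyc ι y) e
    rw [bits_eq, bits_eq, bl_cyc_congr ι hm3 x y e h]
  · intro Q hQ
    refine main (Pr n ⊕ Pr n) (fun x => bits2 (cyc ι x) (cyc ι (fun _ => false)))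
      (Sum.elim (idx ι) (fun _ => none)) ?_ Q (fun x => hQ _)
    rintro x y (e | e) h
    · show bits (cyc ι x) e = bits (cyc ι y) e
      rw [bits_eq, bits_eq, bl_cyc_congr ι hm3 x y e h]
    · rfl

theorem lower (n : ℕ) (hn : 6 ≤ n) : ∃ H : SimpleGraph (Fin n),
    ∀ Q : MvPolynomial (Pr n) ℝ,
      (∀ G : SimpleGraph (Fin n), (Nonempty (G ≃g H) → 0 < eval (bits G) Q) ∧
        (¬ Nonempty (G ≃g H) → eval (bits G) Q ≤ 0)) →
      n / 2 ≤ Q.totalDegree := by
  obtain ⟨H, h, _⟩ := lower_aux n hn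
  exact ⟨H, h⟩

theorem lower_pair (n : ℕ) (hn : 6 ≤ n) (P : MvPolynomial (Pr n ⊕ Pr n) ℝ)
    (hP : ∀ G H : SimpleGraph (Fin n), (Nonempty (G ≃g H) → 0 < eval (bits2 G H) P) ∧
      (¬ Nonempty (G ≃g H) → eval (bits2 G H) P ≤ 0)) :
    n / 2 ≤ P.totalDegree := by
  obtain ⟨H, _, h⟩ := lower_aux n hn
  exact h P (fun G => hP G H)

end Pool.Agent.Q210.TD
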