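import Mathlib

set_option autoImplicit false

/-! # Alternating sums of polynomials of low degree over a cube -/

namespace Pool.Agent.Q210.TD

open MvPolynomial Finset

/-- A Boolean value as an element of `ZMod 2`. -/
def bz (b : Bool) : ZMod 2 := if b then 1 else 0

theorem bz_not (b : Bool) : bz (!b) = bz b + 1 := by
  cases b <;> decide

/-- The sign of a point of the cube. -/
noncomputable def sg {ι : Type} [Fintype ι] (x : ι → Bool) : ℝ :=
  if ∑ i, bz (x i) = 0 then 1 else -1

theorem zmod2_cases : ∀ a : ZMod 2, a = 0 ∨ a = 1 := by decide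

theorem sg_flip {ι : Type} [Fintype ι] [DecidableEq ι] (x : ι → Bool) (i₀ : ι) :
    sg (Function.update x i₀ (!x i₀)) = - sg x := by
  have h : ∑ i, bz (Function.update x i₀ (!x i₀) i) = ∑ i, bz (x i) + 1 := by
    rw [← Finset.add_sum_erase _ _ (Finset.mem_univ i₀),
      ← Finset.add_sum_erase _ (fun i => bz (x i)) (Finset.mem_univ i₀),
      Function.update_self, bz_not]
    have : ∑ i ∈ Finset.univ.erase i₀, bz (Function.update x i₀ (!x i₀) i) =
        ∑ i ∈ Finset.univ.erase i₀, bz (x i) := by
      apply Finset.sum_congr rfl
      intro i hi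
      rw [Function.update_of_ne (Finset.ne_of_mem_erase hi)]
    rw [this]
    ring
  unfold sg
  rw [h]
  rcases zmod2_cases (∑ i, bz (x i)) with h0 | h0
  · rw [h0, if_neg (by decide), if_pos rfl]
  · rw [h0, if_pos (by decide), if_neg (by decide)]
    norm_num

/-- Polynomials of degree less than the dimension of the cube, in variables each of which depends
on at most one coordinate, have alternating sum zero. -/
theorem alt_sum_eq_zero {ι σ : Type} [Fintype ι] [DecidableEq ι]
    (A : (ι → Bool) → σ → ℝ) (idx : σ → Option ι)
    (hA : ∀ x y s, (∀ i, idx s = some i → x i = y i) → A x s = A y s)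
    (P : MvPolynomial σ ℝ) (hP : P.totalDegree < Fintype.card ι) :
    ∑ x : ι → Bool, sg x * eval (A x) P = 0 := by
  classical
  simp only [eval_eq, Finset.mul_sum]
  rw [Finset.sum_comm]
  apply Finset.sum_eq_zero
  intro d hd
  have hcard : d.support.card < Fintype.card ι := by
    refine lt_of_le_of_lt ?_ hP
    refine le_trans ?_ (le_totalDegree hd)
    rw [Finsupp.sum, Finset.card_eq_sum_ones]
    apply Finset.sum_le_sum
    intro i hi
    have := Finsupp.mem_support_iff.1 hi
    omega
  obtain ⟨i₀, hi₀⟩ : ∃ i₀ : ι, ∀ s ∈ d.support, idx s ≠ some i₀ := by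
    by_contra hcon
    push Not at hcon
    choose f hf1 hf2 using hcon
    have hinj : Function.Injective f := by
      intro i j hij
      have h1 := hf2 i
      rw [hij, hf2 j] at h1
      exact (Option.some_injective _ h1).symm
    have : Fintype.card ι ≤ d.support.card := by
      rw [← Finset.card_univ]
      exact Finset.card_le_card_of_injOn f (fun i _ => hf1 i) hinj.injOn
    omega
  refine Finset.sum_involution (fun x _ => Function.update x i₀ (!x i₀)) ?_ ?_ ?_ ?_
  · intro x _
    have hmon : ∏ i ∈ d.support, A (Function.update x i₀ (!x i₀)) i ^ d i =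
        ∏ i ∈ d.support, A x i ^ d i := by
      apply Finset.prod_congr rfl
      intro s hs
      rw [hA (Function.update x i₀ (!x i₀)) x s]
      intro i hi
      have hne : i ≠ i₀ := by
        rintro rfl
        exact hi₀ s hs hi
      rw [Function.update_of_ne hne]
    rw [sg_flip, hmon]
    ring
  · intro x _ _ h
    have := congrFun h i₀
    rw [Function.update_self] at this
    cases hx : x i₀ <;> rw [hx] at this <;> simp at this
  · intro x _
    exact Finset.mem_univ _
  · intro x _
    funext i
    by_cases hi : i = i₀
    · subst hi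
      simp
    · rw [Function.update_of_ne hi, Function.update_of_ne hi]

end Pool.Agent.Q210.TD
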